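import Pool.Agent.X115.HS.Stm2

/-! Project HS: the assembly of (GREEN). -/

set_option autoImplicit false

namespace Pool.Agent.X115.HS

open MeasureTheory Set Filter Topology Real

theorem d2_congr_zero {n : ℕ} {e : X n → ℝ} {x : X n} (h : e =ᶠ[𝓝 x] fun _ => 0) (i : Fin n) :
    d2 i e x = 0 := by
  unfold d2
  have hc : Tendsto (fun s : ℝ => x + s • EuclideanSpace.single i (1 : ℝ)) (𝓝 0) (𝓝 x) := by
    have : Continuous (fun s : ℝ => x + s • EuclideanSpace.single i (1 : ℝ)) := by fun_prop
    have h2 := this.tendsto 0
    simpa using h2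
  have h1 : (fun s : ℝ => e (x + s • EuclideanSpace.single i (1 : ℝ))) =ᶠ[𝓝 0] fun _ => 0 :=
    hc.eventually h
  have h2 := h1.deriv
  rw [h2.deriv_eq]
  simp

theorem lap_compact {n : ℕ} {e : X n → ℝ} (he : HasCompactSupport e) :
    HasCompactSupport (lap e) := by
  refine HasCompactSupport.intro he fun x hx => ?_
  have h : e =ᶠ[𝓝 x] fun _ => 0 := by
    have := notMem_tsupport_iff_eventuallyEq.1 hx
    exact this
  unfold lap
  exact Finset.sum_eq_zero fun i _ => d2_congr_zero h i

theorem lap_sub_const {n : ℕ} (f : X n → ℝ) (c : ℝ) (x : X n) :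
    lap (fun y => f y - c) x = lap f x := by
  unfold lap d2
  refine Finset.sum_congr rfl fun i _ => ?_
  congr 1
  funext s
  rw [deriv_sub_const]

theorem green (hREG : S_REG) (hIBP : S_IBP) (hINT : S_INT) (hCON : S_CON) (hODE : S_ODE)
    (hPROD : S_PROD) : S_GREEN := by
  intro n u hu heq h0 hH
  obtain ⟨ut, utt, cut, cutt, dut, dutt, hdd, hC2⟩ := hREG n u hu
  have hHn : ∀ x, ∀ t : ℝ, 0 ≤ t → 0 ≤ u (x, t) := by
    intro x t ht
    obtain ⟨C, hC⟩ := hH (t + 1) (by linarith)
    exact (hC x t ⟨ht, by linarith⟩).1
  have cu : ContinuousOn (fun p : X n × ℝ => u p) {p | 0 ≤ p.2} := hu.continuousOn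
  have cv : ContinuousOn (fun p : X n × ℝ => u (p.1, p.2) - (1 - Real.cos p.2)) {p | 0 ≤ p.2} :=
    cu.sub (by fun_prop)
  refine ⟨fun x => ut x 0, cv, ?_, ?_, ?_, ?_, ?_⟩
  · exact cut.comp_continuous (f := fun x : X n => (x, (0 : ℝ))) (by fun_prop) fun x => le_refl (0 : ℝ)
  · intro x
    have h1 := (hasDerivWithinAt_iff_tendsto_slope.1 (dut x 0 le_rfl))
    have e1 : Ici (0 : ℝ) \ {0} = Ioi 0 := by
      ext s
      simp only [Set.mem_sdiff, mem_Ici, mem_singleton_iff, mem_Ioi]
      exact ⟨fun h => lt_of_le_of_ne h.1 (Ne.symm h.2), fun h => ⟨h.le, h.ne'⟩⟩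
    rw [e1] at h1
    refine ge_of_tendsto h1 ?_
    filter_upwards [self_mem_nhdsWithin] with s hs
    have hs0 : 0 < s := hs
    rw [slope_def_field, h0]
    have := hHn x s hs0.le
    positivity
  · intro T
    obtain ⟨C, hC⟩ := hH (max T 1) (by positivity)
    refine ⟨C + 2, fun x t ht => ?_⟩
    obtain ⟨h1, h2⟩ := hC x t ⟨ht.1, ht.2.trans (le_max_left _ _)⟩
    have h3 := Real.cos_le_one t
    have h4 := Real.neg_one_le_cos t
    rw [abs_le]
    constructor <;> linarith
  · intro x t ht
    have := hHn x t ht
    linarith
  · intro e he hec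
    have hec0 : Continuous e := he.continuous
    have he2 : ContDiff ℝ 2 e := by exact_mod_cast contDiff_infty.1 he 2
    have hlc : Continuous (lap e) := by
      have := (hPROD n e e he2 he2).2.2
      unfold lap
      exact continuous_finsetSum _ fun i _ => this i
    have cvt : ContinuousOn (fun p : X n × ℝ => ut p.1 p.2 - Real.sin p.2) {p | 0 ≤ p.2} :=
      cut.sub (by fun_prop)
    have cvtt : ContinuousOn (fun p : X n × ℝ => utt p.1 p.2 - Real.cos p.2) {p | 0 ≤ p.2} :=
      cutt.sub (by fun_prop)
    have key := hODE (fun t => ∫ x, (u (x, t) - (1 - Real.cos t)) * e x)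
      (fun t => ∫ x, (ut x t - Real.sin t) * e x) (fun t => ∫ x, (utt x t - Real.cos t) * e x)
      (fun t => ∫ x, (u (x, t) - (1 - Real.cos t)) * lap e x)
      (hINT n (fun x t => u (x, t) - (1 - Real.cos t)) (fun x t => ut x t - Real.sin t) e cv cvt
        (fun x t ht => by
          have h1 : HasDerivAt (fun s : ℝ => 1 - Real.cos s) (Real.sin t) t := by
            have := (Real.hasDerivAt_cos t).const_sub 1
            simpa using this
          exact (dut x t ht).sub h1.hasDerivWithinAt) hec0 hec)
      (hINT n (fun x t => ut x t - Real.sin t) (fun x t => utt x t - Real.cos t) e cvt cvtt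
        (fun x t ht => (dutt x t ht).sub (Real.hasDerivAt_sin t).hasDerivWithinAt) hec0 hec)
      (by
        intro t ht
        have hp : ∀ x, utt x t - Real.cos t = -(u (x, t) - (1 - Real.cos t)) -
            lap (fun y => u (y, t) - (1 - Real.cos t)) x := by
          intro x
          rw [lap_sub_const, ← hdd x t ht]
          have := heq x t ht
          linarith
        have hib := hIBP n (fun y => u (y, t) - (1 - Real.cos t)) e
          ((hC2 t ht.le).sub contDiff_const) he hec
        have sv : Continuous fun x : X n => u (x, t) - (1 - Real.cos t) :=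
          ((hC2 t ht.le).continuous).sub continuous_const
        have stt : Continuous fun x : X n => utt x t - Real.cos t :=
          cvtt.comp_continuous (f := fun x : X n => (x, t)) (by fun_prop) fun x => ht.le
        have sl : Continuous fun x : X n => lap (fun y => u (y, t) - (1 - Real.cos t)) x := by
          have h3 : (fun x : X n => lap (fun y => u (y, t) - (1 - Real.cos t)) x) =
              fun x => -(u (x, t) - (1 - Real.cos t)) - (utt x t - Real.cos t) := by
            funext x
            rw [hp x]
            ring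
          rw [h3]
          exact sv.neg.sub stt
        have i1 : Integrable fun x : X n => (u (x, t) - (1 - Real.cos t)) * e x :=
          (sv.mul hec0).integrable_of_hasCompactSupport hec.mul_left
        have i2 : Integrable fun x : X n =>
            lap (fun y => u (y, t) - (1 - Real.cos t)) x * e x :=
          (sl.mul hec0).integrable_of_hasCompactSupport hec.mul_left
        calc ∫ x, (utt x t - Real.cos t) * e x
            = ∫ x, (-((u (x, t) - (1 - Real.cos t)) * e x) -
                lap (fun y => u (y, t) - (1 - Real.cos t)) x * e x) := by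
              refine integral_congr_ae (Eventually.of_forall fun x => ?_)
              simp only
              rw [hp x]
              ring
          _ = -(∫ x, (u (x, t) - (1 - Real.cos t)) * e x) -
                ∫ x, lap (fun y => u (y, t) - (1 - Real.cos t)) x * e x := by
              have i3 : Integrable fun x : X n => -((u (x, t) - (1 - Real.cos t)) * e x) := i1.neg
              rw [integral_sub i3 i2, integral_neg]
          _ = _ := by rw [hib])
      (hCON n (fun x t => u (x, t) - (1 - Real.cos t)) (lap e) cv hlc (lap_compact hec))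
      (by simp [h0])
    intro t ht
    have h2 := key t ht
    simpa using h2

end Pool.Agent.X115.HS
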