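import Pool.Agent.X115.HS.Stm2

set_option autoImplicit false

namespace Pool.Agent.X115.HS

open MeasureTheory Set Filter Topology Real

theorem deriv_line {n : ℕ} {f : X n → ℝ} (hf : Differentiable ℝ f) (x v : X n) (s : ℝ) :
    deriv (fun r : ℝ => f (x + r • v)) s = fderiv ℝ f (x + s • v) v := by
  have h1 : HasDerivAt (fun r : ℝ => x + r • v) v s := by
    simpa using ((hasDerivAt_id s).smul_const v).const_add x
  have h2 := (hf (x + s • v)).hasFDerivAt.comp_hasDerivAt s h1
  exact h2.deriv

theorem d2_eq {n : ℕ} {f : X n → ℝ} (hf : ContDiff ℝ 2 f) (i : Fin n) (x : X n) :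
    d2 i f x = fderiv ℝ (fun y => fderiv ℝ f y (EuclideanSpace.single i (1 : ℝ))) x
      (EuclideanSpace.single i (1 : ℝ)) := by
  unfold d2
  have hd : Differentiable ℝ f := hf.differentiable (by norm_num)
  have e1 : (deriv fun s : ℝ => f (x + s • EuclideanSpace.single i (1 : ℝ))) =
      fun s => (fun y => fderiv ℝ f y (EuclideanSpace.single i (1 : ℝ)))
        (x + s • EuclideanSpace.single i (1 : ℝ)) := by
    funext s
    exact deriv_line hd x _ s
  rw [e1]
  have h1 : ContDiff ℝ 1 (fderiv ℝ f) := hf.fderiv_right (by norm_num)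
  have h2 : Differentiable ℝ (fun y => fderiv ℝ f y (EuclideanSpace.single i (1 : ℝ))) :=
    (h1.clm_apply contDiff_const).differentiable (by norm_num)
  rw [deriv_line h2 x _ 0]
  simp

theorem ibp : S_IBP := by
  intro n f e hf he hec
  have he2 : ContDiff ℝ 2 e := by exact_mod_cast contDiff_infty.1 he 2
  have hf1 : ContDiff ℝ 1 (fderiv ℝ f) := hf.fderiv_right (by norm_num)
  have he1 : ContDiff ℝ 1 (fderiv ℝ e) := he2.fderiv_right (by norm_num)
  have hfd : Differentiable ℝ f := hf.differentiable (by norm_num)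
  have hed : Differentiable ℝ e := he2.differentiable (by norm_num)
  set v : Fin n → X n := fun i => EuclideanSpace.single i (1 : ℝ) with hv
  have hfv : ∀ i, ContDiff ℝ 1 (fun y => fderiv ℝ f y (v i)) := fun i =>
    hf1.clm_apply contDiff_const
  have hev : ∀ i, ContDiff ℝ 1 (fun y => fderiv ℝ e y (v i)) := fun i =>
    he1.clm_apply contDiff_const
  have hfvv : ∀ i, Continuous (fun x => fderiv ℝ (fun y => fderiv ℝ f y (v i)) x (v i)) := fun i =>
    ((hfv i).continuous_fderiv (by norm_num)).clm_apply continuous_const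
  have hevv : ∀ i, Continuous (fun x => fderiv ℝ (fun y => fderiv ℝ e y (v i)) x (v i)) := fun i =>
    ((hev i).continuous_fderiv (by norm_num)).clm_apply continuous_const
  have c1 : ∀ i, HasCompactSupport (fun y => fderiv ℝ e y (v i)) := fun i =>
    hec.fderiv_apply (𝕜 := ℝ) (v i)
  have c2 : ∀ i, HasCompactSupport (fun x => fderiv ℝ (fun y => fderiv ℝ e y (v i)) x (v i)) :=
    fun i => (c1 i).fderiv_apply (𝕜 := ℝ) (v i)
  have I1 : ∀ i, Integrable fun x => fderiv ℝ (fun y => fderiv ℝ f y (v i)) x (v i) * e x :=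
    fun i => ((hfvv i).mul he.continuous).integrable_of_hasCompactSupport hec.mul_left
  have I2 : ∀ i, Integrable fun x => f x * fderiv ℝ (fun y => fderiv ℝ e y (v i)) x (v i) :=
    fun i => (hf.continuous.mul (hevv i)).integrable_of_hasCompactSupport (c2 i).mul_left
  have I3 : ∀ i, Integrable fun x => fderiv ℝ f x (v i) * fderiv ℝ e x (v i) :=
    fun i => ((hfv i).continuous.mul (hev i).continuous).integrable_of_hasCompactSupport
      (c1 i).mul_left
  have I4 : ∀ i, Integrable fun x => fderiv ℝ f x (v i) * e x :=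
    fun i => ((hfv i).continuous.mul he.continuous).integrable_of_hasCompactSupport hec.mul_left
  have I5 : ∀ i, Integrable fun x => f x * fderiv ℝ e x (v i) :=
    fun i => (hf.continuous.mul (hev i).continuous).integrable_of_hasCompactSupport
      (c1 i).mul_left
  have key : ∀ i, ∫ x, fderiv ℝ (fun y => fderiv ℝ f y (v i)) x (v i) * e x =
      ∫ x, f x * fderiv ℝ (fun y => fderiv ℝ e y (v i)) x (v i) := by
    intro i
    have a1 := integral_mul_fderiv_eq_neg_fderiv_mul_of_integrable (μ := volume) (v := v i)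
      (f := fun y => fderiv ℝ f y (v i)) (g := e) (I1 i) (I3 i) (I4 i)
      (fun x _ => (hfv i).differentiable (by norm_num) x) (fun x _ => hed x)
    have a2 := integral_mul_fderiv_eq_neg_fderiv_mul_of_integrable (μ := volume) (v := v i)
      (f := f) (g := fun y => fderiv ℝ e y (v i)) (I3 i) (I2 i) (I5 i)
      (fun x _ => hfd x) (fun x _ => (hev i).differentiable (by norm_num) x)
    linarith
  have e1 : ∀ x, lap f x * e x =
      ∑ i, fderiv ℝ (fun y => fderiv ℝ f y (v i)) x (v i) * e x := by
    intro x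
    unfold lap
    rw [Finset.sum_mul]
    exact Finset.sum_congr rfl fun i _ => by rw [d2_eq hf i x]
  have e2 : ∀ x, f x * lap e x =
      ∑ i, f x * fderiv ℝ (fun y => fderiv ℝ e y (v i)) x (v i) := by
    intro x
    unfold lap
    rw [Finset.mul_sum]
    exact Finset.sum_congr rfl fun i _ => by rw [d2_eq he2 i x]
  simp only [e1, e2]
  rw [integral_finsetSum _ fun i _ => I1 i, integral_finsetSum _ fun i _ => I2 i]
  exact Finset.sum_congr rfl fun i _ => key i

end Pool.Agent.X115.HS
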