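import Pool.Agent.X115.HS.Stm

/-! Project HS: the smaller parts of (GREEN) and (LIM). -/

set_option autoImplicit false

namespace Pool.Agent.X115.HS

open MeasureTheory Set Filter Topology Real

/-- the first partial derivative -/
noncomputable def pd {n : ℕ} (i : Fin n) (f : X n → ℝ) (x : X n) : ℝ :=
  deriv (fun s : ℝ => f (x + s • EuclideanSpace.single i (1 : ℝ))) 0

/-- (REG) the partial derivatives in `t` of a `C²` function on the closed half space -/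
def S_REG : Prop := ∀ (n : ℕ) (u : X n × ℝ → ℝ), ContDiffOn ℝ 2 u {p | 0 ≤ p.2} →
  ∃ ut utt : X n → ℝ → ℝ,
    ContinuousOn (fun p : X n × ℝ => ut p.1 p.2) {p | 0 ≤ p.2} ∧
    ContinuousOn (fun p : X n × ℝ => utt p.1 p.2) {p | 0 ≤ p.2} ∧
    (∀ x, ∀ t : ℝ, 0 ≤ t → HasDerivWithinAt (fun s => u (x, s)) (ut x t) (Ici 0) t) ∧
    (∀ x, ∀ t : ℝ, 0 ≤ t → HasDerivWithinAt (ut x) (utt x t) (Ici 0) t) ∧
    (∀ x, ∀ t : ℝ, 0 < t → deriv (deriv fun s => u (x, s)) t = utt x t) ∧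
    ∀ t : ℝ, 0 ≤ t → ContDiff ℝ 2 fun y : X n => u (y, t)

/-- (IBP) integration by parts -/
def S_IBP : Prop := ∀ (n : ℕ) (f e : X n → ℝ), ContDiff ℝ 2 f →
  ContDiff ℝ ((⊤ : ℕ∞) : WithTop ℕ∞) e → HasCompactSupport e →
  ∫ x, lap f x * e x = ∫ x, f x * lap e x

/-- (INT) differentiation under the integral sign -/
def S_INT : Prop := ∀ (n : ℕ) (w wt : X n → ℝ → ℝ) (e : X n → ℝ),
  ContinuousOn (fun p : X n × ℝ => w p.1 p.2) {p | 0 ≤ p.2} →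
  ContinuousOn (fun p : X n × ℝ => wt p.1 p.2) {p | 0 ≤ p.2} →
  (∀ x, ∀ t : ℝ, 0 ≤ t → HasDerivWithinAt (w x) (wt x t) (Ici 0) t) →
  Continuous e → HasCompactSupport e →
  ∀ t : ℝ, 0 ≤ t → HasDerivWithinAt (fun t => ∫ x, w x t * e x) (∫ x, wt x t * e x) (Ici 0) t

/-- (CON) continuity of the integrals -/
def S_CON : Prop := ∀ (n : ℕ) (w : X n → ℝ → ℝ) (e : X n → ℝ),
  ContinuousOn (fun p : X n × ℝ => w p.1 p.2) {p | 0 ≤ p.2} →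
  Continuous e → HasCompactSupport e → ContinuousOn (fun t => ∫ x, w x t * e x) (Ici 0)

/-- (ODE) Duhamel's formula -/
def S_ODE : Prop := ∀ g g1 g2 h : ℝ → ℝ,
  (∀ t : ℝ, 0 ≤ t → HasDerivWithinAt g (g1 t) (Ici 0) t) →
  (∀ t : ℝ, 0 ≤ t → HasDerivWithinAt g1 (g2 t) (Ici 0) t) →
  (∀ t : ℝ, 0 < t → g2 t = -g t - h t) → ContinuousOn h (Ici 0) → g 0 = 0 →
  ∀ t : ℝ, 0 ≤ t → g t = g1 0 * Real.sin t - ∫ τ in (0 : ℝ)..t, Real.sin (t - τ) * h τ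

/-- (LAPG) the Laplacian of the heat kernels, and bounds -/
def S_LAPG : Prop := ∀ (n : ℕ) (z : ℂ), 0 < z.re →
  (∀ x0 : X n, ContDiff ℝ ((⊤ : ℕ∞) : WithTop ℕ∞) (fun x : X n => (hk z (x - x0)).re) ∧
    ContDiff ℝ ((⊤ : ℕ∞) : WithTop ℕ∞) (fun x : X n => (hk z (x - x0)).im) ∧
    ∀ x, lap (fun y => (hk z (y - x0)).re) x = (dhk z (x - x0)).re ∧
      lap (fun y => (hk z (y - x0)).im) x = (dhk z (x - x0)).im) ∧
  ∃ C σ : ℝ, 0 < σ ∧ ∀ x0 x : X n, ‖hk z (x - x0)‖ ≤ C * gk σ (x - x0) ∧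
    ‖dhk z (x - x0)‖ ≤ C * gk σ (x - x0) ∧
    ∀ i, |pd i (fun y => (hk z (y - x0)).re) x| ≤ C * gk σ (x - x0) ∧
      |pd i (fun y => (hk z (y - x0)).im) x| ≤ C * gk σ (x - x0)

/-- (CUT) cut-off functions -/
def S_CUT : Prop := ∀ n : ℕ, ∃ (χ : ℕ → X n → ℝ) (K : ℝ), ∀ k : ℕ,
  ContDiff ℝ ((⊤ : ℕ∞) : WithTop ℕ∞) (χ k) ∧ HasCompactSupport (χ k) ∧
  (∀ x, 0 ≤ χ k x ∧ χ k x ≤ 1) ∧ (∀ x, ‖x‖ ≤ k → χ k x = 1) ∧
  (∀ x i, |pd i (χ k) x| ≤ K ∧ |d2 i (χ k) x| ≤ K) ∧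
  ∀ x, ‖x‖ < k → ∀ i, pd i (χ k) x = 0 ∧ d2 i (χ k) x = 0

/-- (PROD) the Laplacian of a product -/
def S_PROD : Prop := ∀ (n : ℕ) (f g : X n → ℝ), ContDiff ℝ 2 f → ContDiff ℝ 2 g →
  (∀ x, lap (fun y => f y * g y) x = lap f x * g x + 2 * ∑ i, pd i f x * pd i g x +
    f x * lap g x) ∧ (∀ i, Continuous (pd i f)) ∧ (∀ i, Continuous (d2 i f))

/-- (LIM1) the part of (LIM) on the integrability: use `e = gk s (· - x0) * χ k`, `t = π / 2` and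
`AECover.integrable_of_integral_norm_bounded` -/
def S_LIM1 : Prop := S_LAPG → S_CUT → S_PROD → S_BD → ∀ (n : ℕ) (v : X n → ℝ → ℝ) (a : X n → ℝ),
  WS n v a → ∀ x0 : X n, ∀ s : ℝ, 0 < s → Integrable fun x => a x * gk s (x - x0)

/-- (LIM2) Duhamel's formula for the heat kernels, given the integrability: cut-off functions and
dominated convergence, for the real and the imaginary part -/
def S_LIM2 : Prop := S_LAPG → S_CUT → S_PROD → S_BD → ∀ (n : ℕ) (v : X n → ℝ → ℝ) (a : X n → ℝ),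
  WS n v a → ∀ x0 : X n, (∀ s : ℝ, 0 < s → Integrable fun x => a x * gk s (x - x0)) →
  ∀ z : ℂ, 0 < z.re → ∀ t : ℝ, 0 ≤ t →
    ∫ x, (v x t : ℂ) * hk z (x - x0) = (∫ x, (a x : ℂ) * hk z (x - x0)) * Real.sin t -
      ∫ τ in (0 : ℝ)..t, (Real.sin (t - τ) : ℂ) * ∫ x, (v x τ : ℂ) * dhk z (x - x0)

end Pool.Agent.X115.HS
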