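import Mathlib

/-! Project HS (MP_e4c1d4_an): the only solution of `-Δu = u - 1` in a half space which vanishes on
the boundary, is nonnegative, and bounded on strips, is `1 - cos x_N`, in every dimension.

With `v = u - (1 - cos t)` and `a(x) = ∂_t u(x, 0) ≥ 0` one has for all test functions `e` of `x`
(Duhamel) `∫ v(x,t) e = (∫ a e) sin t - ∫_0^t sin (t-τ) ∫ v(x,τ) Δe`. For the heat kernels `p_z`
(complex time `z`) put `V z t = ∫ v(x,t) p_z(x-x0) dx`, `A z = ∫ a p_z`; `Δ p_z = ∂_z p_z`. Then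
`0 ≤ V s (2π) = π A'(s) + O(s^-2 A(9s/2)) + O(s^-(J+1))` (iterated Duhamel and Cauchy estimates),
`A ≥ 0`, `A → 0`, so `A(s) = O(s^-J)` for all `J`, so `a = 0`; then `V = 0` by iterating. -/

set_option autoImplicit false

namespace Pool.Agent.X115.HS

open MeasureTheory Set Filter Topology Real

/-- the space `ℝ^(N-1)` of the variable `x'` -/
abbrev X (n : ℕ) : Type := EuclideanSpace ℝ (Fin n)

/-- the second partial derivative in the direction of the `i`-th coordinate -/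
noncomputable def d2 {n : ℕ} (i : Fin n) (f : X n → ℝ) (x : X n) : ℝ :=
  deriv (deriv fun s : ℝ => f (x + s • EuclideanSpace.single i (1 : ℝ))) 0

/-- the Laplacian -/
noncomputable def lap {n : ℕ} (f : X n → ℝ) (x : X n) : ℝ := ∑ i, d2 i f x

/-- the weak form of the problem for `v = u - (1 - cos t)`, `a x = ∂_t u (x, 0)` -/
structure WS (n : ℕ) (v : X n → ℝ → ℝ) (a : X n → ℝ) : Prop where
  cont : ContinuousOn (fun p : X n × ℝ => v p.1 p.2) {p | 0 ≤ p.2}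
  acont : Continuous a
  apos : ∀ x, 0 ≤ a x
  bdd : ∀ T : ℝ, ∃ M : ℝ, ∀ x, ∀ t ∈ Icc 0 T, |v x t| ≤ M
  low : ∀ x, ∀ t : ℝ, 0 ≤ t → Real.cos t - 1 ≤ v x t
  duh : ∀ e : X n → ℝ, ContDiff ℝ ((⊤ : ℕ∞) : WithTop ℕ∞) e → HasCompactSupport e →
    ∀ t : ℝ, 0 ≤ t → ∫ x, v x t * e x = (∫ x, a x * e x) * Real.sin t -
      ∫ τ in (0 : ℝ)..t, Real.sin (t - τ) * ∫ x, v x τ * lap e x

/-- (GREEN) from the problem to the weak form -/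
def S_GREEN : Prop := ∀ (n : ℕ) (u : X n × ℝ → ℝ), ContDiffOn ℝ 2 u {p | 0 ≤ p.2} →
  (∀ (x : X n) (t : ℝ), 0 < t →
    -(lap (fun y => u (y, t)) x + deriv (deriv fun s => u (x, s)) t) = u (x, t) - 1) →
  (∀ x, u (x, 0) = 0) →
  (∀ M : ℝ, 0 < M → ∃ C : ℝ, ∀ x, ∀ t ∈ Icc 0 M, 0 ≤ u (x, t) ∧ u (x, t) ≤ C) →
  ∃ a : X n → ℝ, WS n (fun x t => u (x, t) - (1 - Real.cos t)) a

/-- the heat kernel with complex time -/
noncomputable def hk {n : ℕ} (z : ℂ) (x : X n) : ℂ :=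
  (4 * π * z) ^ (-((n : ℂ) / 2)) * Complex.exp (-((‖x‖ ^ 2 : ℝ) : ℂ) / (4 * z))

/-- its Laplacian, which is its derivative with respect to `z` -/
noncomputable def dhk {n : ℕ} (z : ℂ) (x : X n) : ℂ :=
  (((‖x‖ ^ 2 : ℝ) : ℂ) / (4 * z ^ 2) - n / (2 * z)) * hk z x

/-- the heat kernel with real time -/
noncomputable def gk {n : ℕ} (s : ℝ) (x : X n) : ℝ :=
  (4 * π * s) ^ (-((n : ℝ) / 2)) * Real.exp (-‖x‖ ^ 2 / (4 * s))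

/-- (BD) bounds for the heat kernel -/
def S_BD : Prop := ∀ (n : ℕ) (s : ℝ), 0 < s →
  (∀ x : X n, hk (s : ℂ) x = (gk s x : ℂ)) ∧ (∀ x : X n, 0 < gk s x) ∧
  Integrable (fun x : X n => gk s x) ∧ ∫ x : X n, gk s x = 1 ∧
  (∀ z : ℂ, ‖z - s‖ ≤ s / 2 → 0 < z.re ∧ ∀ x : X n, ‖hk z x‖ ≤ 3 ^ n * gk (9 / 2 * s) x)

/-- (HOL) integrals against the heat kernel are holomorphic -/
def S_HOL : Prop := ∀ (n : ℕ) (f : X n → ℝ) (x0 : X n), AEStronglyMeasurable f volume →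
  (∀ s : ℝ, 0 < s → Integrable fun x => f x * gk s (x - x0)) → ∀ z : ℂ, 0 < z.re →
  Integrable (fun x => (f x : ℂ) * hk z (x - x0)) ∧
  Integrable (fun x => (f x : ℂ) * dhk z (x - x0)) ∧
  HasDerivAt (fun w : ℂ => ∫ x, (f x : ℂ) * hk w (x - x0)) (∫ x, (f x : ℂ) * dhk z (x - x0)) z

/-- (LIM) Duhamel's formula for the heat kernels (by cutting off; the integrability of `a * gk`
follows from the formula at `t = π / 2` for `gk` times a cut-off function) -/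
def S_LIM : Prop := ∀ (n : ℕ) (v : X n → ℝ → ℝ) (a : X n → ℝ), WS n v a → ∀ x0 : X n,
  (∀ s : ℝ, 0 < s → Integrable fun x => a x * gk s (x - x0)) ∧
  ∀ z : ℂ, 0 < z.re → ∀ t : ℝ, 0 ≤ t →
    ∫ x, (v x t : ℂ) * hk z (x - x0) = (∫ x, (a x : ℂ) * hk z (x - x0)) * Real.sin t -
      ∫ τ in (0 : ℝ)..t, (Real.sin (t - τ) : ℂ) * ∫ x, (v x τ : ℂ) * dhk z (x - x0)

/-- the analytic data: Duhamel's formula with parameter -/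
structure AD (V W : ℂ → ℝ → ℂ) (A : ℂ → ℂ) : Prop where
  dV : ∀ z : ℂ, 0 < z.re → ∀ t : ℝ, 0 ≤ t → HasDerivAt (fun w => V w t) (W z t) z
  dA : ∀ z : ℂ, 0 < z.re → DifferentiableAt ℂ A z
  cV : ∀ z : ℂ, 0 < z.re → ContinuousOn (fun t => V z t) (Ici 0)
  cW : ∀ z : ℂ, 0 < z.re → ContinuousOn (fun t => W z t) (Ici 0)
  duh : ∀ z : ℂ, 0 < z.re → ∀ t : ℝ, 0 ≤ t →
    V z t = A z * Real.sin t - ∫ τ in (0 : ℝ)..t, (Real.sin (t - τ) : ℂ) * W z τ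
  bdd : ∀ T : ℝ, ∃ M : ℝ, ∀ s : ℝ, 0 < s → ∀ z : ℂ, ‖z - s‖ ≤ s / 2 → ∀ t ∈ Icc 0 T, ‖V z t‖ ≤ M

/-- (EXPN) iterated Duhamel at `t = 2π`, and `A → 0` -/
def S_EXPN : Prop := ∀ (V W : ℂ → ℝ → ℂ) (A : ℂ → ℂ) (κ : ℝ), AD V W A →
  (∀ s : ℝ, 0 < s → ∀ z : ℂ, ‖z - s‖ ≤ s / 2 → ‖A z‖ ≤ κ * (A ((9 / 2 * s : ℝ) : ℂ)).re) →
  (∀ s : ℝ, 0 < s → (A (s : ℂ)).im = 0 ∧ 0 ≤ (A (s : ℂ)).re) →
  (∀ s : ℝ, 0 < s → ∀ t : ℝ, 0 ≤ t → Real.cos t - 1 ≤ (V (s : ℂ) t).re) →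
  (∀ s : ℝ, 0 < s → DifferentiableAt ℝ (fun s : ℝ => (A (s : ℂ)).re) s) ∧
  (∃ B : ℝ, ∀ s : ℝ, 1 ≤ s → (A (s : ℂ)).re ≤ B) ∧
  Tendsto (fun s : ℝ => (A (s : ℂ)).re) atTop (𝓝 0) ∧
  ∀ J : ℕ, ∃ C : ℝ, ∀ s : ℝ, 1 ≤ s →
    -(C * ((A ((9 / 2 * s : ℝ) : ℂ)).re / s ^ 2 + 1 / s ^ (J + 1))) ≤
      deriv (fun s : ℝ => (A (s : ℂ)).re) s

/-- (DEC) the differential inequality gives decay -/
def S_DEC : Prop := ∀ (A : ℝ → ℝ) (C B : ℝ) (J : ℕ), 1 ≤ J →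
  (∀ s : ℝ, 0 < s → DifferentiableAt ℝ A s) → (∀ s : ℝ, 0 < s → 0 ≤ A s) →
  (∀ s : ℝ, 1 ≤ s → A s ≤ B) → Tendsto A atTop (𝓝 0) →
  (∀ s : ℝ, 1 ≤ s → -(C * (A (9 / 2 * s) / s ^ 2 + 1 / s ^ (J + 1))) ≤ deriv A s) →
  ∃ D : ℝ, ∀ s : ℝ, 1 ≤ s → s ^ J * A s ≤ D

/-- (UNI) if `A = 0` then `V = 0` (for `|z - s| ≤ (s/2) (1 - j/J)` one has
`|V z t| ≤ M (2J/s)^j t^(2j)/(2j)!`, by Cauchy's estimate on circles of radius `s/(2J)`) -/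
def S_UNI : Prop := ∀ (V W : ℂ → ℝ → ℂ), AD V W (fun _ => 0) →
  ∀ s : ℝ, 0 < s → ∀ t : ℝ, 0 ≤ t → V (s : ℂ) t = 0

/-- (ZA) a nonnegative continuous function whose heat means decay fast vanishes -/
def S_ZA : Prop := ∀ (n : ℕ) (a : X n → ℝ) (x0 : X n), Continuous a → (∀ x, 0 ≤ a x) →
  (∀ s : ℝ, 0 < s → Integrable fun x => a x * gk s (x - x0)) →
  (∀ J : ℕ, 1 ≤ J → ∃ D : ℝ, ∀ s : ℝ, 1 ≤ s → s ^ J * ∫ x, a x * gk s (x - x0) ≤ D) → a x0 = 0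

/-- (ZV) a bounded continuous function all of whose heat means at `x0` vanish is zero at `x0` -/
def S_ZV : Prop := ∀ (n : ℕ) (f : X n → ℝ) (x0 : X n) (M : ℝ), Continuous f → (∀ x, |f x| ≤ M) →
  (∀ s : ℝ, 0 < s → ∫ x, f x * gk s (x - x0) = 0) → f x0 = 0

end Pool.Agent.X115.HS
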