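import Pool.Agent.X115.HS.Stm2

/-! Project HS: the assembly. -/

set_option autoImplicit false

namespace Pool.Agent.X115.HS

open MeasureTheory Set Filter Topology Real

theorem hk_cont {n : ℕ} (z : ℂ) : Continuous fun x : X n => hk z x := by
  unfold hk
  fun_prop

theorem dhk_cont {n : ℕ} (z : ℂ) : Continuous fun x : X n => dhk z x := by
  unfold dhk
  exact Continuous.mul (by fun_prop) (hk_cont z)

theorem slice_cont {n : ℕ} {v : X n → ℝ → ℝ} {a : X n → ℝ} (h : WS n v a) {t : ℝ} (ht : 0 ≤ t) :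
    Continuous fun x => v x t := by
  have h1 : ContinuousOn (fun p : X n × ℝ => v p.1 p.2) {p | 0 ≤ p.2} := h.cont
  exact h1.comp_continuous (f := fun x : X n => (x, t)) (by fun_prop) (fun x => ht)

theorem time_cont {n : ℕ} {v : X n → ℝ → ℝ} {a : X n → ℝ} (h : WS n v a) (x : X n) :
    ContinuousOn (fun t => v x t) (Ici 0) := by
  have h1 : ContinuousOn (fun p : X n × ℝ => v p.1 p.2) {p | 0 ≤ p.2} := h.cont
  exact h1.comp (f := fun t : ℝ => (x, t)) (by fun_prop) (fun t ht => ht)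

/-- continuity in `t` of the integrals against an integrable kernel -/
theorem int_cont {n : ℕ} {v : X n → ℝ → ℝ} {a : X n → ℝ} (h : WS n v a) (k : X n → ℂ)
    (hk : Integrable k) : ContinuousOn (fun t => ∫ x, (v x t : ℂ) * k x) (Ici 0) := by
  intro t0 ht0
  obtain ⟨M, hM⟩ := h.bdd (t0 + 1)
  have hnb : Ici (0 : ℝ) ∩ Iio (t0 + 1) ∈ 𝓝[Ici 0] t0 :=
    inter_mem self_mem_nhdsWithin (mem_nhdsWithin_of_mem_nhds (Iio_mem_nhds (by linarith)))
  refine tendsto_integral_filter_of_dominated_convergence (fun x => |M| * ‖k x‖) ?_ ?_ ?_ ?_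
  · filter_upwards [hnb] with t ht
    exact ((Complex.continuous_ofReal.comp (slice_cont h ht.1)).aestronglyMeasurable).mul
      hk.aestronglyMeasurable
  · filter_upwards [hnb] with t ht
    refine Eventually.of_forall fun x => ?_
    rw [norm_mul, Complex.norm_real, Real.norm_eq_abs]
    have := hM x t ⟨ht.1, ht.2.le⟩
    exact mul_le_mul_of_nonneg_right (this.trans (le_abs_self M)) (norm_nonneg _)
  · exact hk.norm.const_mul _
  · refine Eventually.of_forall fun x => ?_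
    have h1 : Tendsto (fun t => v x t) (𝓝[Ici 0] t0) (𝓝 (v x t0)) := time_cont h x t0 ht0
    exact ((Complex.continuous_ofReal.tendsto _).comp h1).mul_const _

theorem gk_shift_int {n : ℕ} (hBD : S_BD) {s : ℝ} (hs : 0 < s) (x0 : X n) :
    Integrable (fun x : X n => gk s (x - x0)) ∧ ∫ x : X n, gk s (x - x0) = 1 := by
  obtain ⟨-, -, h3, h4, -⟩ := hBD n s hs
  exact ⟨h3.comp_sub_right x0, by rw [integral_sub_right_eq_self (fun x : X n => gk s x) x0]; exact h4⟩

theorem bdd_mul_int {n : ℕ} (hBD : S_BD) {f : X n → ℝ} (hf : Continuous f) {M : ℝ}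
    (hM : ∀ x, |f x| ≤ M) {s : ℝ} (hs : 0 < s) (x0 : X n) :
    Integrable fun x => f x * gk s (x - x0) :=
  (gk_shift_int hBD hs x0).1.bdd_mul hf.aestronglyMeasurable
    (Eventually.of_forall fun x => by rw [Real.norm_eq_abs]; exact hM x)

/-- the analytic data of a solution -/
theorem ad_of_ws (hBD : S_BD) (hHOL : S_HOL) (hLIM : S_LIM) {n : ℕ} {v : X n → ℝ → ℝ}
    {a : X n → ℝ} (h : WS n v a) (x0 : X n) :
    AD (fun z t => ∫ x, (v x t : ℂ) * hk z (x - x0)) (fun z t => ∫ x, (v x t : ℂ) * dhk z (x - x0))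
      (fun z => ∫ x, (a x : ℂ) * hk z (x - x0)) := by
  obtain ⟨hai, hduh⟩ := hLIM n v a h x0
  have hvi : ∀ t : ℝ, 0 ≤ t → ∀ s : ℝ, 0 < s → Integrable fun x => v x t * gk s (x - x0) := by
    intro t ht s hs
    obtain ⟨M, hM⟩ := h.bdd t
    exact bdd_mul_int hBD (slice_cont h ht) (fun x => hM x t ⟨ht, le_rfl⟩) hs x0
  have h1 : ∀ s : ℝ, 0 < s → Integrable fun x : X n => (1 : ℝ) * gk s (x - x0) := by
    intro s hs
    simpa using (gk_shift_int hBD hs x0).1
  refine ⟨?_, ?_, ?_, ?_, hduh, ?_⟩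
  · intro z hz t ht
    exact (hHOL n (fun x => v x t) x0 (slice_cont h ht).aestronglyMeasurable (hvi t ht) z hz).2.2
  · intro z hz
    exact (hHOL n a x0 h.acont.aestronglyMeasurable hai z hz).2.2.differentiableAt
  · intro z hz
    have := (hHOL n (fun _ => 1) x0 aestronglyMeasurable_const h1 z hz).1
    exact int_cont h _ (by simpa using this)
  · intro z hz
    have := (hHOL n (fun _ => 1) x0 aestronglyMeasurable_const h1 z hz).2.1
    exact int_cont h _ (by simpa using this)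
  · intro T
    obtain ⟨M, hM⟩ := h.bdd T
    refine ⟨|M| * 3 ^ n, fun s hs z hz t ht => ?_⟩
    obtain ⟨hre, hb⟩ := (hBD n s hs).2.2.2.2 z hz
    have h92 : 0 < 9 / 2 * s := by positivity
    have hi := (gk_shift_int hBD h92 x0).1
    calc ‖∫ x, (v x t : ℂ) * hk z (x - x0)‖ ≤ ∫ x, |M| * (3 ^ n * gk (9 / 2 * s) (x - x0)) := by
          refine norm_integral_le_of_norm_le ((hi.const_mul _).const_mul _)
            (Eventually.of_forall fun x => ?_)
          rw [norm_mul, Complex.norm_real, Real.norm_eq_abs]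
          exact mul_le_mul ((hM x t ht).trans (le_abs_self M)) (hb _) (norm_nonneg _)
            (abs_nonneg _)
      _ = |M| * 3 ^ n := by
          rw [integral_const_mul, integral_const_mul, (gk_shift_int hBD h92 x0).2, mul_one]

theorem real_A (hBD : S_BD) {n : ℕ} (f : X n → ℝ) (x0 : X n) {s : ℝ} (hs : 0 < s) :
    ∫ x, (f x : ℂ) * hk (s : ℂ) (x - x0) = ((∫ x, f x * gk s (x - x0) : ℝ) : ℂ) := by
  rw [← integral_complex_ofReal]
  refine integral_congr_ae (Eventually.of_forall fun x => ?_)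
  simp only
  rw [(hBD n s hs).1, Complex.ofReal_mul]

theorem a_zero (hBD : S_BD) (hHOL : S_HOL) (hLIM : S_LIM) (hE : S_EXPN) (hD : S_DEC) (hZA : S_ZA)
    {n : ℕ} {v : X n → ℝ → ℝ} {a : X n → ℝ} (h : WS n v a) (x0 : X n) : a x0 = 0 := by
  have hAD := ad_of_ws hBD hHOL hLIM h x0
  obtain ⟨hai, hduh⟩ := hLIM n v a h x0
  have hre : ∀ s : ℝ, 0 < s → (∫ x, (a x : ℂ) * hk (s : ℂ) (x - x0)) =
      ((∫ x, a x * gk s (x - x0) : ℝ) : ℂ) := fun s hs => real_A hBD a x0 hs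
  have hpos : ∀ s : ℝ, 0 < s → 0 ≤ ∫ x, a x * gk s (x - x0) := fun s hs =>
    integral_nonneg fun x => mul_nonneg (h.apos x) ((hBD n s hs).2.1 _).le
  obtain ⟨e1, ⟨B, e2⟩, e3, e4⟩ := hE _ _ _ (3 ^ n) hAD (by
    intro s hs z hz
    obtain ⟨hzre, hb⟩ := (hBD n s hs).2.2.2.2 z hz
    have h92 : 0 < 9 / 2 * s := by positivity
    rw [hre _ h92, Complex.ofReal_re, ← integral_const_mul]
    refine norm_integral_le_of_norm_le ((hai _ h92).const_mul _)
      (Eventually.of_forall fun x => ?_)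
    rw [norm_mul, Complex.norm_real, Real.norm_eq_abs, abs_of_nonneg (h.apos x)]
    calc a x * ‖hk z (x - x0)‖ ≤ a x * (3 ^ n * gk (9 / 2 * s) (x - x0)) :=
          mul_le_mul_of_nonneg_left (hb _) (h.apos x)
      _ = 3 ^ n * (a x * gk (9 / 2 * s) (x - x0)) := by ring)
    (by
      intro s hs
      rw [hre s hs]
      exact ⟨Complex.ofReal_im _, by rw [Complex.ofReal_re]; exact hpos s hs⟩)
    (by
      intro s hs t ht
      rw [real_A hBD (fun x => v x t) x0 hs, Complex.ofReal_re]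
      obtain ⟨M, hM⟩ := h.bdd t
      have hi := bdd_mul_int hBD (slice_cont h ht) (fun x => hM x t ⟨ht, le_rfl⟩) hs x0
      have hg := gk_shift_int hBD hs x0
      calc Real.cos t - 1 = ∫ x, (Real.cos t - 1) * gk s (x - x0) := by
            rw [integral_const_mul, hg.2, mul_one]
        _ ≤ ∫ x, v x t * gk s (x - x0) := integral_mono (hg.1.const_mul _) hi fun x =>
            mul_le_mul_of_nonneg_right (h.low x t ht) ((hBD n s hs).2.1 _).le)
  refine hZA n a x0 h.acont h.apos hai fun J hJ => ?_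
  obtain ⟨C, hC⟩ := e4 J
  obtain ⟨D, hDD⟩ := hD (fun s : ℝ => (∫ x, (a x : ℂ) * hk (s : ℂ) (x - x0)).re) C B J hJ e1
    (fun s hs => by rw [hre s hs, Complex.ofReal_re]; exact hpos s hs) e2 e3 hC
  refine ⟨D, fun s hs => ?_⟩
  have := hDD s hs
  rwa [hre s (by linarith), Complex.ofReal_re] at this

theorem v_zero (hBD : S_BD) (hHOL : S_HOL) (hLIM : S_LIM) (hU : S_UNI) (hZV : S_ZV)
    {n : ℕ} {v : X n → ℝ → ℝ} {a : X n → ℝ} (h : WS n v a) (ha : ∀ x, a x = 0) (x0 : X n) {t : ℝ}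
    (ht : 0 ≤ t) : v x0 t = 0 := by
  have hAD := ad_of_ws hBD hHOL hLIM h x0
  have hA : (fun z : ℂ => ∫ x, (a x : ℂ) * hk z (x - x0)) = fun _ => 0 := by
    funext z
    simp [ha]
  rw [hA] at hAD
  obtain ⟨M, hM⟩ := h.bdd t
  refine hZV n (fun x => v x t) x0 M (slice_cont h ht) (fun x => hM x t ⟨ht, le_rfl⟩)
    fun s hs => ?_
  have h1 := hU _ _ hAD s hs t ht
  rw [real_A hBD (fun x => v x t) x0 hs] at h1
  exact_mod_cast h1

/-- the theorem -/
theorem main (hG : S_GREEN) (hBD : S_BD) (hHOL : S_HOL) (hLIM : S_LIM) (hE : S_EXPN) (hD : S_DEC)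
    (hU : S_UNI) (hZA : S_ZA) (hZV : S_ZV) (n : ℕ) (u : X n × ℝ → ℝ)
    (hu : ContDiffOn ℝ 2 u {p | 0 ≤ p.2})
    (heq : ∀ (x : X n) (t : ℝ), 0 < t →
      -(lap (fun y => u (y, t)) x + deriv (deriv fun s => u (x, s)) t) = u (x, t) - 1)
    (h0 : ∀ x, u (x, 0) = 0)
    (hH : ∀ M : ℝ, 0 < M → ∃ C : ℝ, ∀ x, ∀ t ∈ Icc 0 M, 0 ≤ u (x, t) ∧ u (x, t) ≤ C)
    (x : X n) (t : ℝ) (ht : 0 ≤ t) : u (x, t) = 1 - Real.cos t := by
  obtain ⟨a, h⟩ := hG n u hu heq h0 hH
  have := v_zero hBD hHOL hLIM hU hZV h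
    (fun x0 => a_zero hBD hHOL hLIM hE hD hZA h x0) x ht
  linarith

theorem lim_of (h1 : S_LIM1) (h2 : S_LIM2) (hL : S_LAPG) (hC : S_CUT) (hP : S_PROD)
    (hBD : S_BD) : S_LIM := fun n v a h x0 =>
  ⟨fun s hs => h1 hL hC hP hBD n v a h x0 s hs, fun z hz t ht =>
    h2 hL hC hP hBD n v a h x0 (fun s hs => h1 hL hC hP hBD n v a h x0 s hs) z hz t ht⟩

end Pool.Agent.X115.HS
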